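import Mathlib
import Pool.Agent.H270R3.Cap.Stmt

set_option autoImplicit false

open MeasureTheory
open scoped ENNReal NNReal

namespace Pool.Agent.Results.MP_4f6fd6_an.NotComparable

open Pool.Agent.H270R3.Cap

/-- The capacities `c_{b,1}` and `c_{b,2}` of de Branges–Rovnyak spaces are not comparable in
general: there is a function `b` in the closed unit ball of `H^∞` with `‖b‖ = 1`, not an extreme
point of that ball (`|b| < 1` a.e. and `log (1 - |b|²)` is integrable), such that for every constant `A` there is a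
set `E` with `A c_{b,1}(E) < c_{b,2}(E) < ∞`. Here `T` is the Toeplitz operator `T_b`. -/
theorem result : ∃ b : Circ → ℂ, Measurable b ∧ (∀ n : ℤ, n < 0 → fourierCoeff b n = 0) ∧
    eLpNorm b ∞ m = 1 ∧ (∀ᵐ x ∂m, ‖b x‖ < 1) ∧
    Integrable (fun x => Real.log (1 - ‖b x‖ ^ 2)) m ∧
    ∃ T : HH →L[ℂ] HH, IsToeplitz b T ∧
      ∀ A : ℝ≥0, ∃ E : Set Circ, (A : ℝ≥0∞) * c1 T E < c2 T E ∧ c2 T E < ∞ :=
  main2

end Pool.Agent.Results.MP_4f6fd6_an.NotComparable
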